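import Mathlib

/-!
Project CT, job CRI, part A: linear algebra over the field with three elements.
-/

set_option autoImplicit false

namespace Pool.Agent.Y405.CT

open Finset

section lin

variable {J : Type} [Fintype J]

/-- the Laplacian -/
def Lp (m : J → J → ZMod 3) (v : J → ZMod 3) (j : J) : ZMod 3 := ∑ i, m j i * (v i - v j)

/-- splitting a sum according to representatives of the pairs -/
theorem sum_split (σ : J → J) (q : J) (hσ : ∀ j, σ (σ j) = j) (hq : ∀ j, σ j = j ↔ j = q)
    (f : J → ℕ) (hf : Function.Injective f) (g : J → ZMod 3) :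
    ∑ i, g i = ∑ s : {j // f j < f (σ j)}, (g s + g (σ s)) + g q := by
  classical
  have h1 : ∑ s : {j // f j < f (σ j)}, (g s + g (σ s)) =
      ∑ s ∈ univ.filter (fun j => f j < f (σ j)), (g s + g (σ s)) :=
    (Finset.sum_subtype (univ.filter (fun j => f j < f (σ j))) (by simp)
      (fun j => g j + g (σ j))).symm
  have h2 : ∑ s ∈ univ.filter (fun j => f j < f (σ j)), g (σ s) =
      ∑ s ∈ univ.filter (fun j => f (σ j) < f j), g s := by
    refine Finset.sum_nbij' σ σ ?_ ?_ ?_ ?_ ?_
    · intro j hj
      simp only [mem_filter, mem_univ, true_and] at hj ⊢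
      rwa [hσ]
    · intro j hj
      simp only [mem_filter, mem_univ, true_and] at hj ⊢
      rwa [hσ]
    · intro j _
      exact hσ j
    · intro j _
      exact hσ j
    · intro j _
      rfl
  have h3 : ∑ i, g i = ∑ s ∈ univ.filter (fun j => f j < f (σ j)), g s +
      ∑ s ∈ univ.filter (fun j => ¬ f j < f (σ j)), g s :=
    (Finset.sum_filter_add_sum_filter_not univ _ g).symm
  have h4 : univ.filter (fun j => ¬ f j < f (σ j)) =
      insert q (univ.filter (fun j => f (σ j) < f j)) := by
    ext j
    simp only [mem_filter, mem_univ, true_and, mem_insert, not_lt]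
    constructor
    · intro h
      rcases h.lt_or_eq with h | h
      · exact Or.inr h
      · exact Or.inl ((hq j).1 (hf h))
    · rintro (h | h)
      · rw [(hq j).2 h]
      · exact h.le
  have h5 : q ∉ univ.filter (fun j => f (σ j) < f j) := by
    simp only [mem_filter, mem_univ, true_and]
    rw [(hq q).2 rfl]
    exact lt_irrefl _
  rw [h3, h4, sum_insert h5, h1, sum_add_distrib, h2]
  ring

variable {m : J → J → ZMod 3} {σ : J → J} {q : J}

theorem Lp_sigma (hσ : ∀ j, σ (σ j) = j) (ha : ∀ i j, m (σ i) (σ j) = - m i j)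
    (v : J → ZMod 3) (j : J) : Lp m (fun i => v (σ i)) j = - Lp m v (σ j) := by
  unfold Lp
  have h1 : ∑ i, m j i * (v (σ i) - v (σ j)) = ∑ i, m j (σ i) * (v i - v (σ j)) := by
    refine Finset.sum_nbij' σ σ (fun _ _ => mem_univ _) (fun _ _ => mem_univ _)
      (fun i _ => hσ i) (fun i _ => hσ i) ?_
    intro i _
    rw [hσ]
  rw [h1, ← sum_neg_distrib]
  refine sum_congr rfl fun i _ => ?_
  have h2 := ha (σ j) i
  rw [hσ] at h2
  rw [h2]
  ring

/-- the main lemma of linear algebra -/
theorem lin_main (hσ : ∀ j, σ (σ j) = j) (hq : ∀ j, σ j = j ↔ j = q)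
    (hs : ∀ i j, m i j = m j i) (ha : ∀ i j, m (σ i) (σ j) = - m i j)
    (hE : ∀ v : J → ZMod 3, (∀ j, v (σ j) = v j) → (∀ j, Lp m v j = 0) → ∀ i j, v i = v j)
    (v : J → ZMod 3) (hv : ∀ j, Lp m v j = 0) : ∀ i j, v i = v j := by
  classical
  -- a numbering
  obtain ⟨f, hf⟩ : ∃ f : J → ℕ, Function.Injective f :=
    ⟨fun j => (Fintype.equivFin J j : ℕ), fun a b h => (Fintype.equivFin J).injective (Fin.ext h)⟩
  have hqq : σ q = q := (hq q).2 rfl
  -- additivity
  have hadd : ∀ (x y : J → ZMod 3) (a b : ZMod 3) (j : J),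
      Lp m (fun i => a * x i + b * y i) j = a * Lp m x j + b * Lp m y j := by
    intro x y a b j
    unfold Lp
    rw [mul_sum, mul_sum, ← sum_add_distrib]
    exact sum_congr rfl fun i _ => by ring
  have hv' : ∀ j, Lp m (fun i => v (σ i)) j = 0 := fun j => by
    rw [Lp_sigma hσ ha, hv, neg_zero]
  have h3 : ∀ x : ZMod 3, x = -x → x = 0 := by decide
  -- odd part
  set w : J → ZMod 3 := fun i => 1 * v i + (-1) * v (σ i) with hw
  have hwL : ∀ j, Lp m w j = 0 := fun j => by
    rw [hw, hadd v (fun i => v (σ i)), hv, hv']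
    ring
  have hwo : ∀ j, w (σ j) = - w j := fun j => by
    simp only [hw]
    rw [hσ]
    ring
  -- even part
  set u : J → ZMod 3 := fun i => 1 * v i + 1 * v (σ i) with hu
  have huL : ∀ j, Lp m u j = 0 := fun j => by
    rw [hu, hadd v (fun i => v (σ i)), hv, hv']
    ring
  have hue : ∀ j, u (σ j) = u j := fun j => by
    simp only [hu]
    rw [hσ]
    ring
  have huc := hE u hue huL
  -- the matrix
  set S := {j // f j < f (σ j)}
  let dg : S → ZMod 3 := fun p => ∑ l : S, (m p l + m p (σ l)) + m p q
  let N : Matrix S S (ZMod 3) := fun p l => m p l + m p (σ l) - (if p = l then dg p else 0)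
  have hev : ∀ (x : S → ZMod 3) (X : J → ZMod 3), (∀ s : S, X s = x s) →
      (∀ j, X (σ j) = X j) → X q = 0 → ∀ p : S, Lp m X p = (N.mulVec x) p := by
    intro x X h1 h2 h4 p
    unfold Lp
    rw [sum_split σ q hσ hq f hf]
    have e1 : (N.mulVec x) p = ∑ l : S, (m p l + m p (σ l)) * x l - dg p * x p := by
      show ∑ l : S, N p l * x l = _
      have : ∀ l : S, N p l * x l = (m p l + m p (σ l)) * x l - (if p = l then dg p * x l else 0) := by
        intro l
        show (m p l + m p (σ l) - (if p = l then dg p else 0)) * x l = _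
        split_ifs <;> ring
      rw [sum_congr rfl fun l _ => this l, sum_sub_distrib, sum_ite_eq]
      simp
    rw [e1]
    have e2 : ∀ s : S, m p s * (X s - X p) + m p (σ s) * (X (σ s) - X p) =
        (m p s + m p (σ s)) * x s - (m p s + m p (σ s)) * x p := by
      intro s
      rw [h2, h1, h1]
      ring
    rw [sum_congr rfl fun s _ => e2 s, sum_sub_distrib, ← sum_mul, h4, h1]
    show _ = _ - (∑ l : S, (m p l + m p (σ l)) + m p q) * x p
    ring
  have hod : ∀ p : S, Lp m w p = (N.transpose.mulVec (fun s : S => w s)) p := by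
    intro p
    unfold Lp
    rw [sum_split σ q hσ hq f hf]
    have hwq : w q = 0 := by
      apply h3
      have := hwo q
      rwa [hqq] at this
    have e1 : (N.transpose.mulVec (fun s : S => w s)) p =
        ∑ l : S, (m l p + m l (σ p)) * w l - dg p * w p := by
      show ∑ l : S, N l p * w l = _
      have : ∀ l : S, N l p * w l = (m l p + m l (σ p)) * w l - (if p = l then dg p * w l else 0) := by
        intro l
        show (m l p + m l (σ p) - (if l = p then dg l else 0)) * w l = _
        by_cases h : l = p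
        · subst h
          simp only [if_true]
          ring
        · rw [if_neg h, if_neg (fun h' => h h'.symm)]
          ring
      rw [sum_congr rfl fun l _ => this l, sum_sub_distrib, sum_ite_eq]
      simp
    rw [e1]
    have e2 : ∀ s : S, m p s * (w s - w p) + m p (σ s) * (w (σ s) - w p) =
        (m s p + m s (σ p)) * w s - (m p s + m p (σ s)) * w p := by
      intro s
      have e3 : m s (σ p) = - m p (σ s) := by
        have := ha p (σ s)
        rw [hσ] at this
        rw [hs s (σ p), this]
      rw [hwo, e3, hs s p]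
      ring
    rw [sum_congr rfl fun s _ => e2 s, sum_sub_distrib, ← sum_mul, hwq]
    show _ = _ - (∑ l : S, (m p l + m p (σ l)) + m p q) * w p
    ring
  -- N is nonsingular
  have hdet : N.det ≠ 0 := by
    intro h0
    obtain ⟨x, hx0, hx⟩ := Matrix.exists_mulVec_eq_zero_iff.2 h0
    apply hx0
    let X : J → ZMod 3 := fun j => if h : f j < f (σ j) then x ⟨j, h⟩ else
      if h : f (σ j) < f (σ (σ j)) then x ⟨σ j, h⟩ else 0
    have hX1 : ∀ s : S, X s = x s := fun s => by
      show (if h : f s < f (σ s) then x ⟨s, h⟩ else _) = _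
      rw [dif_pos s.2]
    have hX2 : ∀ j, X (σ j) = X j := by
      intro j
      show (if h : f (σ j) < f (σ (σ j)) then x ⟨σ j, h⟩ else
        if h : f (σ (σ j)) < f (σ (σ (σ j))) then x ⟨σ (σ j), h⟩ else 0) =
        (if h : f j < f (σ j) then x ⟨j, h⟩ else
        if h : f (σ j) < f (σ (σ j)) then x ⟨σ j, h⟩ else 0)
      simp only [hσ]
      by_cases h1 : f j < f (σ j)
      · have h2 : ¬ f (σ j) < f j := by omega
        simp [h1, h2]
      · by_cases h2 : f (σ j) < f j
        · simp [h1, h2]
        · simp [h1, h2]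
    have hXq : X q = 0 := by
      show (if h : f q < f (σ q) then x ⟨q, h⟩ else
        if h : f (σ q) < f (σ (σ q)) then x ⟨σ q, h⟩ else 0) = 0
      simp [hqq]
    have hXS : ∀ p : S, Lp m X p = 0 := fun p => by
      rw [hev x X hX1 hX2 hXq, hx]
      rfl
    have hXo : ∀ j, Lp m X j = - Lp m X (σ j) := fun j => by
      rw [← Lp_sigma hσ ha]
      congr 1
      funext i
      exact (hX2 i).symm
    have hXL : ∀ j, Lp m X j = 0 := by
      intro j
      by_cases h1 : f j < f (σ j)
      · exact hXS ⟨j, h1⟩
      · by_cases h2 : f (σ j) < f j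
        · rw [hXo j]
          have h5 : f (σ j) < f (σ (σ j)) := by rwa [hσ]
          rw [hXS ⟨σ j, h5⟩, neg_zero]
        · have h5 : σ j = j := hf (by omega)
          have h6 := hXo j
          rw [h5] at h6
          exact h3 _ h6
    have hXc := hE X hX2 hXL
    funext s
    rw [← hX1 s, hXc s q, hXq]
    rfl
  have hw0 : (fun s : S => w s) = 0 := by
    by_contra hne
    have h5 : ∃ y : S → ZMod 3, y ≠ 0 ∧ N.transpose.mulVec y = 0 :=
      ⟨_, hne, by
        funext p
        rw [← hod p, hwL]
        rfl⟩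
    have h6 := Matrix.exists_mulVec_eq_zero_iff.1 h5
    rw [Matrix.det_transpose] at h6
    exact hdet h6
  have hwz : ∀ j, w j = 0 := by
    intro j
    by_cases h1 : f j < f (σ j)
    · exact congrFun hw0 ⟨j, h1⟩
    · by_cases h2 : f (σ j) < f j
      · have h5 : f (σ j) < f (σ (σ j)) := by rwa [hσ]
        have h6 := congrFun hw0 ⟨σ j, h5⟩
        have h7 : w (σ j) = 0 := h6
        rw [hwo] at h7
        exact neg_eq_zero.1 h7
      · have h5 : σ j = j := hf (by omega)
        have h6 := hwo j
        rw [h5] at h6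
        exact h3 _ h6
  intro i j
  have h7 : ∀ i, v i = -(u i + w i) := by
    intro i
    simp only [hu, hw]
    have : ∀ a b : ZMod 3, a = -(1 * a + 1 * b + (1 * a + -1 * b)) := by decide
    exact this _ _
  rw [h7 i, h7 j, hwz i, hwz j, huc i j]

end lin

end Pool.Agent.Y405.CT
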