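import Pool.Agent.Y715.T.RecC

/-!
Project CT, job CRI, part B: primary primes, conjugation, rational integers.
-/

set_option autoImplicit false

namespace Pool.Agent.Y405.CT

open Pool.Agent.Y692.QS
open Pool.Agent.Y715.T.Rec (cs nn exists_p not_unit nr_of_assoc)
open Pool.Agent.Y715.T.RecG (Pq)
open scoped Classical

variable {π ρ : Ei}

theorem pq_star (h : Pq π) : Pq (star π) := by
  refine ⟨Pool.Agent.Y715.T.RecC.star_prime h.prime, ?_⟩
  have h1 := Pool.Agent.Y715.T.RecC.star_dvd h.three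
  rw [star_sub, star_one] at h1
  have h2 : star (3 : Ei) = 3 := by decide
  rwa [h2] at h1

/-- the conjugate of the symbol -/
theorem cs_starG (h : Pq π) {x : Ei} (hx : ¬ π ∣ x) : cs (star π) (star x) = -cs π x := by
  have h' := pq_star h
  apply Pool.Agent.Y715.T.RecG.cs_of h'.prime h'.norm
  have h1 := Pool.Agent.Y715.T.RecC.star_dvd
    (Pool.Agent.Y715.T.RecG.cs_spec h.prime h.norm hx)
  have h2 : nn (star π) = nn π := by
    unfold nn
    rw [nr_star]
  have h3 : ∀ c : ZMod 3, star (w ^ c.val : Ei) = w ^ (-c).val := by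
    intro c
    rw [star_pow, star_w]
    revert c
    decide
  rw [star_sub, star_pow, h3] at h1
  rw [h2]
  exact h1

theorem eq_of_dvdG (h : Pq π) (h' : Pq ρ) (hd : ρ ∣ π) : ρ = π := by
  obtain ⟨u, hu⟩ := (h'.prime.dvd_prime_iff_associated h.prime).1 hd
  have h3 : (3 : Ei) ∣ (u : Ei) - 1 := by
    have e : (u : Ei) - 1 = (π - 1) - (ρ - 1) * u := by rw [← hu]; ring
    rw [e]
    exact dvd_sub h.three (Dvd.dvd.mul_right h'.three _)
  have h4 : (u : Ei) = 1 := by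
    obtain ⟨c, hc | hc⟩ := Pool.Agent.Y715.T.RecC.unit_form u.isUnit
    · rw [hc] at h3 ⊢
      have h5 : (((3 : ℤ) : Ei)) ∣ w ^ c.val - 1 := by exact_mod_cast h3
      rw [int_dvd] at h5
      exact (by decide : ∀ c : ZMod 3, ((3 : ℤ) ∣ (w ^ c.val - 1 : Ei).re ∧
        (3 : ℤ) ∣ (w ^ c.val - 1 : Ei).im) → (w : Ei) ^ c.val = 1) c h5
    · exfalso
      rw [hc] at h3
      have h5 : (((3 : ℤ) : Ei)) ∣ -w ^ c.val - 1 := by exact_mod_cast h3
      rw [int_dvd] at h5
      exact (by decide : ∀ c : ZMod 3, ¬ ((3 : ℤ) ∣ (-w ^ c.val - 1 : Ei).re ∧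
        (3 : ℤ) ∣ (-w ^ c.val - 1 : Ei).im)) c h5
  rw [← hu, h4, mul_one]

/-- the primes `1` modulo `3` split -/
theorem not_prime_split {p : ℕ} (hp : p.Prime) (h3 : p % 3 = 1) : ¬ Prime ((p : ℕ) : Ei) := by
  intro hP
  have : Fact p.Prime := ⟨hp⟩
  have hcard : 3 ∣ Fintype.card (ZMod p)ˣ := by
    rw [ZMod.card_units]
    omega
  obtain ⟨x, hx⟩ := exists_prime_orderOf_dvd_card 3 hcard
  have hx3 : (x : ZMod p) ^ 3 = 1 := by
    have h1 := pow_orderOf_eq_one x
    rw [hx] at h1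
    have h2 := congrArg (fun u : (ZMod p)ˣ => (u : ZMod p)) h1
    simpa using h2
  have hx1 : (x : ZMod p) ≠ 1 := by
    intro h
    have : x = 1 := Units.ext h
    rw [this, orderOf_one] at hx
    omega
  have hx2 : (x : ZMod p) ^ 2 + x + 1 = 0 := by
    have h1 : ((x : ZMod p) - 1) * ((x : ZMod p) ^ 2 + x + 1) = 0 := by linear_combination hx3
    rcases mul_eq_zero.1 h1 with h2 | h2
    · exact absurd (sub_eq_zero.1 h2) hx1
    · exact h2
  set r : ℤ := (((x : ZMod p).val : ℕ) : ℤ) with hr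
  have hrx : ((r : ℤ) : ZMod p) = x := by
    rw [hr, Int.cast_natCast, ZMod.natCast_zmod_val]
  have h4 : (p : ℤ) ∣ r ^ 2 + r + 1 := by
    rw [← ZMod.intCast_zmod_eq_zero_iff_dvd]
    push_cast
    rw [hrx]
    exact hx2
  have h5 : ((p : ℕ) : Ei) ∣ ((r : Ei) - w) * ((r : Ei) - w ^ 2) := by
    have e : ((r : Ei) - w) * ((r : Ei) - w ^ 2) = ((r ^ 2 + r + 1 : ℤ) : Ei) := by
      push_cast
      have e1 := w_sq
      have e2 : w ^ 2 = -1 - w := by rw [pow_two]; exact e1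
      have e3 : w * w ^ 2 = 1 := by rw [← pow_succ']; exact w_cube
      linear_combination e3 - (r : Ei) * e2
    rw [e]
    have : ((p : ℕ) : Ei) = (((p : ℕ) : ℤ) : Ei) := by push_cast; rfl
    rw [this, int_dvd_int]
    exact h4
  have e0 : ((p : ℕ) : Ei) = (((p : ℕ) : ℤ) : Ei) := by push_cast; rfl
  rcases hP.dvd_or_dvd h5 with h6 | h6
  · rw [e0, int_dvd] at h6
    have h7 := h6.2
    rw [QuadraticAlgebra.im_sub, QuadraticAlgebra.im_intCast, w_im] at h7
    have h8 : (p : ℤ) ∣ 1 := by simpa using h7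
    have h9 := Int.le_of_dvd one_pos h8
    have := hp.one_lt
    omega
  · rw [e0, int_dvd] at h6
    have h7 := h6.2
    have e2 : w ^ 2 = -1 - w := by rw [pow_two]; exact w_sq
    rw [e2, QuadraticAlgebra.im_sub, QuadraticAlgebra.im_intCast] at h7
    have e3 : (-1 - w : Ei).im = -1 := by decide
    rw [e3] at h7
    have h8 : (p : ℤ) ∣ 1 := by simpa using h7
    have h9 := Int.le_of_dvd one_pos h8
    have := hp.one_lt
    omega

theorem nat_int (n : ℕ) : ((n : ℕ) : Ei) = (((n : ℕ) : ℤ) : Ei) := by push_cast; rfl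

/-- the rational prime below -/
theorem below (h : Pq π) : ∃ l : ℕ, l.Prime ∧ π ∣ (l : Ei) ∧
    ((l % 3 = 1 ∧ nr π = l) ∨ (l % 3 = 2 ∧ nr π = (l : ℤ) ^ 2)) ∧
    ∀ n : ℤ, π ∣ (n : Ei) ↔ (l : ℤ) ∣ n := by
  obtain ⟨l, hl, hd, hn⟩ := exists_p h.prime
  refine ⟨l, hl, hd, ?_, ?_⟩
  · have h3 : l % 3 ≠ 0 := by
      intro h0
      have h1 : l = 3 := ((Nat.prime_dvd_prime_iff_eq Nat.prime_three hl).1
        (Nat.dvd_of_mod_eq_zero h0)).symm
      rw [h1] at hd
      exact h.norm (by exact_mod_cast hd)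
    have h12 : l % 3 = 1 ∨ l % 3 = 2 := by omega
    rcases h12 with h1 | h2
    · left
      refine ⟨h1, ?_⟩
      rcases hn with hn | hn
      · exact hn
      · exfalso
        apply not_prime_split hl h1
        obtain ⟨u, hu⟩ := hd
        have h4 : nr u = 1 := by
          have h5 : nr ((l : ℕ) : Ei) = nr π * nr u := by rw [hu, nr_mul]
          rw [nr_nat, hn] at h5
          have h6 : ((l : ℤ) ^ 2) ≠ 0 := pow_ne_zero _ (by exact_mod_cast hl.ne_zero)
          exact (mul_left_cancel₀ h6 (by rw [mul_one]; exact h5)).symm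
        obtain ⟨v, hv⟩ := isUnit_iff.2 h4
        rw [hu, ← hv]
        exact (Associated.prime_iff ⟨v, rfl⟩).1 h.prime
    · right
      refine ⟨h2, ?_⟩
      rcases hn with hn | hn
      · exfalso
        have h4 : ∀ a b : ZMod 3, a ^ 2 - a * b + b ^ 2 ≠ 2 := by decide
        apply h4 (π.re : ZMod 3) (π.im : ZMod 3)
        have h5 : ((nr π : ℤ) : ZMod 3) = 2 := by
          rw [hn]
          have h6 : ((l : ℤ) : ZMod 3) = ((l : ℕ) : ZMod 3) := by push_cast; rfl
          rw [h6, ← Nat.mod_add_div l 3, h2]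
          push_cast
          have : (3 : ZMod 3) = 0 := rfl
          rw [this]
          ring
        unfold nr at h5
        push_cast at h5
        exact h5
      · exact hn
  · intro n
    constructor
    · rintro ⟨u, hu⟩
      have h1 : n ^ 2 = nr π * nr u := by
        rw [← nr_mul, ← hu, nr_int]
      have hlp : Prime (l : ℤ) := Nat.prime_iff_prime_int.1 hl
      have h2 : (l : ℤ) ∣ n ^ 2 := by
        rw [h1]
        apply Dvd.dvd.mul_right
        rcases hn with hn | hn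
        · rw [hn]
        · rw [hn]; exact dvd_pow_self _ (by norm_num)
      exact hlp.dvd_of_dvd_pow h2
    · intro h1
      have h2 : (((l : ℕ) : ℤ) : Ei) ∣ (n : Ei) := int_dvd_int.2 h1
      rw [← nat_int] at h2
      exact hd.trans h2

/-- every class modulo a prime of degree one contains an integer -/
theorem exists_int {l : ℕ} (hl : l.Prime) (hd : π ∣ (l : Ei)) (hn : nr π = l) (y : Ei) :
    ∃ x : ℤ, π ∣ y - x := by
  have hb : ¬ (l : ℤ) ∣ π.im := by
    rintro ⟨b, hb⟩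
    have h1 : (l : ℤ) ∣ π.re ^ 2 := by
      have h2 : nr π = π.re ^ 2 - π.re * π.im + π.im ^ 2 := rfl
      rw [hn, hb] at h2
      exact ⟨1 + π.re * b - l * b ^ 2, by linear_combination -h2⟩
    have hlp : Prime (l : ℤ) := Nat.prime_iff_prime_int.1 hl
    obtain ⟨a, ha⟩ := hlp.dvd_of_dvd_pow h1
    have h3 : (l : ℤ) = (l : ℤ) ^ 2 * (a ^ 2 - a * b + b ^ 2) := by
      have h2 : nr π = π.re ^ 2 - π.re * π.im + π.im ^ 2 := rfl
      rw [hn, hb, ha] at h2
      linear_combination h2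
    have hl0 : (l : ℤ) ≠ 0 := by exact_mod_cast hl.ne_zero
    have h4 : (1 : ℤ) = l * (a ^ 2 - a * b + b ^ 2) := by
      apply mul_left_cancel₀ hl0
      linear_combination h3
    have h5 : (l : ℤ) ∣ 1 := ⟨_, h4⟩
    have h9 := Int.le_of_dvd one_pos h5
    have := hl.one_lt
    omega
  have hcop : IsCoprime π.im (l : ℤ) := by
    have h1 : IsCoprime (l : ℤ) π.im := (Nat.prime_iff_prime_int.1 hl).coprime_iff_not_dvd.2 hb
    exact h1.symm
  obtain ⟨b, c, hbc⟩ := hcop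
  -- `w = - b a` modulo `π`
  have hw : π ∣ w - ((-(b * π.re) : ℤ) : Ei) := by
    obtain ⟨u, hu⟩ := hd
    refine ⟨b + c * u * w, ?_⟩
    have e1 : (π : Ei) = (π.re : Ei) + (π.im : Ei) * w := eta π
    have e2 : ((b * π.im + c * l : ℤ) : Ei) = 1 := by rw [hbc]; simp
    push_cast at e2 ⊢
    have e3 : π * (b + c * u * w) = b * π + c * (π * u) * w := by ring
    rw [e3, ← hu]
    linear_combination (-w) * e2 - (b : Ei) * e1
  refine ⟨y.re - y.im * (b * π.re), ?_⟩
  have e1 : y - ((y.re - y.im * (b * π.re) : ℤ) : Ei) =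
      (y.im : Ei) * (w - ((-(b * π.re) : ℤ) : Ei)) := by
    nth_rewrite 1 [eta y]
    push_cast
    ring
  rw [e1]
  exact Dvd.dvd.mul_left hw _

theorem cube_one {l : ℕ} (hl : l.Prime) (hd : π ∣ (l : Ei)) (hn : nr π = l)
    (hz : ∀ n : ℤ, π ∣ (n : Ei) ↔ (l : ℤ) ∣ n) {n : ℤ} {y : Ei} (h : π ∣ (n : Ei) - y ^ 3) :
    ∃ x : ℤ, (l : ℤ) ∣ n - x ^ 3 := by
  obtain ⟨x, hx⟩ := exists_int hl hd hn y
  refine ⟨x, (hz _).1 ?_⟩
  push_cast
  have e : (n : Ei) - (x : Ei) ^ 3 = ((n : Ei) - y ^ 3) + (y ^ 3 - (x : Ei) ^ 3) := by ring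
  rw [e]
  exact dvd_add h (hx.trans (sub_dvd_pow_sub_pow _ _ _))

theorem cube_two {l : ℕ} (hl : l.Prime) (h2 : l % 3 = 2) (n : ℤ) :
    ∃ x : ℤ, (l : ℤ) ∣ n - x ^ 3 := by
  have : Fact l.Prime := ⟨hl⟩
  obtain ⟨k, hk⟩ : ∃ k, l = 3 * k + 2 := ⟨l / 3, by omega⟩
  refine ⟨n ^ (2 * k + 1), ?_⟩
  rw [← ZMod.intCast_zmod_eq_zero_iff_dvd]
  push_cast
  have e : ((n : ZMod l) ^ (2 * k + 1)) ^ 3 = (n : ZMod l) ^ (2 * (l - 1) + 1) := by
    rw [← pow_mul]
    congr 1
    omega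
  rw [e, pow_succ, pow_mul']
  by_cases h0 : (n : ZMod l) = 0
  · rw [h0]; simp
  · rw [ZMod.pow_card_sub_one_eq_one h0]
    ring

theorem real_of_star {z : Ei} (h : star z = z) : z = ((z.re : ℤ) : Ei) := by
  have h1 : z.im = 0 := by
    have h2 := congrArg QuadraticAlgebra.im h
    rw [star_im] at h2
    omega
  rw [eta z]
  simp [h1]

end Pool.Agent.Y405.CT
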