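import Pool.Agent.Y703.CT.StmB
import Pool.Agent.Y405.CT.CriA
import Pool.Agent.Y405.CT.CriB

/-!
Project CT, job CRI: the criterion over the integers implies the criterion over the Eisenstein
integers.
-/

set_option autoImplicit false
set_option linter.unusedSectionVars false

open scoped Classical

namespace Pool.Agent.Y405.CT

open Pool.Agent.Y703.CT
open Pool.Agent.Y692.QS (Ei w nr toC)
open Pool.Agent.Y715.T.Rec (cs)
open Pool.Agent.Y715.T.RecG (Pq)
open Finset

section one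

variable {J : Type} [Fintype J] {π : J → Ei} {e : J → ZMod 3}

theorem pi_inj (h : Dt π e) {i j : J} (hij : π i = π j) : i = j := by
  by_contra hne
  exact h.nd i j hne (by rw [hij])

/-- a prime dividing a partial product divides a factor -/
theorem dvd_part (h : Dt π e) (A : Finset J) {ρ : Ei} (hρ : Prime ρ)
    (hd : ρ ∣ ∏ j ∈ A, π j ^ (e j).val) : ∃ j ∈ A, ρ ∣ π j ∧ π j ∣ ρ := by
  obtain ⟨j, hj, h1⟩ := (hρ.dvd_finsetProd_iff _).1 hd
  have h2 := hρ.dvd_of_dvd_pow h1
  exact ⟨j, hj, h2, ((hρ.dvd_prime_iff_associated (h.pq j).prime).1 h2).symm.dvd⟩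

theorem eval_pos (h : Dt π e) (j : J) : (e j).val ≠ 0 := fun h0 =>
  h.e0 j ((ZMod.val_eq_zero _).1 h0)

theorem pi_dvd_part (h : Dt π e) (A : Finset J) {j : J} (hj : j ∈ A) :
    π j ∣ ∏ j ∈ A, π j ^ (e j).val :=
  (dvd_pow_self _ (eval_pos h j)).trans (Finset.dvd_prod_of_mem _ hj)

/-- exact powers -/
theorem pow_dvd (h : Dt π e) (i : J) (k : ℕ) :
    π i ^ k ∣ pD π e ↔ k ≤ (e i).val := by
  unfold pD
  rw [← Finset.mul_prod_erase univ (fun j => π j ^ (e j).val) (mem_univ i)]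
  constructor
  · intro h1
    by_contra hk
    push Not at hk
    have h2 : π i ^ ((e i).val + 1) ∣ π i ^ (e i).val * ∏ j ∈ univ.erase i, π j ^ (e j).val :=
      (pow_dvd_pow _ hk).trans h1
    rw [pow_succ] at h2
    have h3 : π i ∣ ∏ j ∈ univ.erase i, π j ^ (e j).val :=
      (mul_dvd_mul_iff_left (pow_ne_zero _ (h.pq i).prime.ne_zero)).1 h2
    obtain ⟨j, hj, h4, -⟩ := dvd_part h _ (h.pq i).prime h3
    exact h.nd j i (Finset.ne_of_mem_erase hj) h4
  · intro h1
    exact Dvd.dvd.mul_right (pow_dvd_pow _ h1) _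

end one

section two

variable {J : Type} [Fintype J] {π : J → Ei} {e : J → ZMod 3} {D : ℕ}

theorem dvd_D_iff (hD : (D : Ei) = pD π e ∨ (D : Ei) = -pD π e) (x : Ei) :
    x ∣ (D : Ei) ↔ x ∣ pD π e := by
  rcases hD with h | h
  · rw [h]
  · rw [h, dvd_neg]

theorem star_nat (n : ℕ) : star (n : Ei) = (n : Ei) := by
  ext
  · rw [Pool.Agent.Y692.QS.star_re]
    simp
  · rw [Pool.Agent.Y692.QS.star_im]
    simp

theorem exists_sigma (h : Dt π e) (hD : (D : Ei) = pD π e ∨ (D : Ei) = -pD π e) (j : J) :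
    ∃ i, π i = star (π j) := by
  have h1 : π j ∣ (D : Ei) := (dvd_D_iff hD _).2 (pi_dvd_part h univ (mem_univ j))
  have h2 : star (π j) ∣ (D : Ei) := by
    have := Pool.Agent.Y715.T.RecC.star_dvd h1
    rwa [star_nat] at this
  have hq := pq_star (h.pq j)
  obtain ⟨i, -, h3, h4⟩ := dvd_part h univ hq.prime ((dvd_D_iff hD _).1 h2)
  exact ⟨i, eq_of_dvdG hq (h.pq i) h4⟩

theorem e_sigma (h : Dt π e) (hD : (D : Ei) = pD π e ∨ (D : Ei) = -pD π e) {i j : J}
    (hij : π i = star (π j)) : e i = e j := by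
  have key : ∀ k : ℕ, k ≤ (e i).val ↔ k ≤ (e j).val := by
    intro k
    rw [← pow_dvd h, ← pow_dvd h, ← dvd_D_iff hD, ← dvd_D_iff hD, hij]
    constructor
    · intro h1
      have h2 := Pool.Agent.Y715.T.RecC.star_dvd h1
      rwa [star_nat, star_pow, star_star] at h2
    · intro h1
      have h2 := Pool.Agent.Y715.T.RecC.star_dvd h1
      rwa [star_nat, star_pow] at h2
  have h1 : (e i).val = (e j).val := le_antisymm ((key _).1 le_rfl) ((key _).2 le_rfl)
  exact ZMod.val_injective 3 h1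

theorem exists_prime_dvd {p : ℕ} (hp : p.Prime) : ∃ ρ : Ei, Prime ρ ∧ ρ ∣ ((p : ℕ) : Ei) := by
  have h0 : ((p : ℕ) : Ei) ≠ 0 := by exact_mod_cast hp.ne_zero
  have hu : ¬ IsUnit ((p : ℕ) : Ei) := by
    rw [Pool.Agent.Y692.QS.isUnit_iff, Pool.Agent.Y692.QS.nr_nat]
    intro h
    have h1 := hp.one_lt
    have h2 : (1 : ℤ) < (p : ℤ) := by exact_mod_cast h1
    nlinarith
  obtain ⟨ρ, h1, h2⟩ := WfDvdMonoid.exists_irreducible_factor hu h0
  exact ⟨ρ, h1.prime, h2⟩

theorem prime_below {p : ℕ} (hp : p.Prime) {l : ℕ} (hl : l.Prime) {ρ : Ei} (h1 : ρ ∣ (p : Ei))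
    (hz : ∀ n : ℤ, ρ ∣ (n : Ei) ↔ (l : ℤ) ∣ n) : l = p := by
  rw [nat_int, hz] at h1
  exact (Nat.prime_dvd_prime_iff_eq hl hp).1 (by exact_mod_cast h1)

end two

section three

variable {J : Type} [Fintype J] {π : J → Ei} {e : J → ZMod 3} {D : ℕ}

theorem cs_part (h : Dt π e) {v : J → ZMod 3} {j : J} {c : ZMod 3} (hc : v j ≠ c) :
    ¬ π j ∣ ∏ i ∈ univ.filter (fun i => v i = c), π i ^ (e i).val ∧
    cs (π j) (∏ i ∈ univ.filter (fun i => v i = c), π i ^ (e i).val) =
      ∑ i, if v i = c then e i * cs (π j) (π i) else 0 := by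
  have hp := (h.pq j).prime
  have h9 := (h.pq j).norm
  have hnd : ∀ i ∈ univ.filter (fun i => v i = c), ¬ π j ∣ π i := by
    intro i hi
    apply h.nd i j
    rintro rfl
    exact hc (mem_filter.1 hi).2
  have hnd' : ∀ i ∈ univ.filter (fun i => v i = c), ¬ π j ∣ π i ^ (e i).val := fun i hi h1 =>
    hnd i hi (hp.dvd_of_dvd_pow h1)
  constructor
  · intro h1
    obtain ⟨i, hi, h2⟩ := (hp.dvd_finsetProd_iff _).1 h1
    exact hnd' i hi h2
  · rw [Pool.Agent.Y715.T.RecG.cs_prod hp h9 _ _ hnd', sum_filter]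
    refine sum_congr rfl fun i _ => ?_
    by_cases hi : v i = c
    · rw [if_pos hi, if_pos hi, Pool.Agent.Y715.T.RecG.cs_pow hp h9
        (hnd i (mem_filter.2 ⟨mem_univ _, hi⟩)), ZMod.natCast_zmod_val]
    · rw [if_neg hi, if_neg hi]

theorem even_part (hNS : NoSplit D) (h : Dt π e)
    (hD : (D : Ei) = pD π e ∨ (D : Ei) = -pD π e) (v : J → ZMod 3)
    (hv : ∀ j, ∑ i, e i * cs (π j) (π i) * (v i - v j) = 0)
    (hve : ∀ i j, π i = star (π j) → v i = v j) : ∀ i j, v i = v j := by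
  choose σ hσ using exists_sigma h hD
  have hσσ : ∀ j, σ (σ j) = j := fun j => pi_inj h (by rw [hσ, hσ, star_star])
  have hes : ∀ j, e (σ j) = e j := fun j => e_sigma h hD (hσ j)
  have hvs : ∀ j, v (σ j) = v j := fun j => hve _ _ (hσ j)
  let P : ZMod 3 → Ei := fun c => ∏ i ∈ univ.filter (fun i => v i = c), π i ^ (e i).val
  have hPs : ∀ c, star (P c) = P c := by
    intro c
    have h1 : star (P c) = ∏ i ∈ univ.filter (fun i => v i = c), star (π i ^ (e i).val) := by
      have := map_prod (starRingEnd Ei) (fun i => π i ^ (e i).val)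
        (univ.filter (fun i => v i = c))
      exact this
    rw [h1]
    refine Finset.prod_nbij' σ σ ?_ ?_ (fun i _ => hσσ i) (fun i _ => hσσ i) ?_
    · intro i hi
      simp only [mem_filter, mem_univ, true_and] at hi ⊢
      rw [hvs, hi]
    · intro i hi
      simp only [mem_filter, mem_univ, true_and] at hi ⊢
      rw [hvs, hi]
    · intro i _
      rw [hes, hσ, star_pow]
  obtain ⟨n, hn⟩ : ∃ n : ZMod 3 → ℤ, ∀ c, P c = ((n c : ℤ) : Ei) :=
    ⟨fun c => (P c).re, fun c => real_of_star (hPs c)⟩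
  have hprod : ∏ c, P c = pD π e := Finset.prod_fiberwise univ v (fun i => π i ^ (e i).val)
  have hprodn : (∏ c, n c) = (D : ℤ) ∨ (∏ c, n c) = -(D : ℤ) := by
    have h1 : (((∏ c, n c : ℤ)) : Ei) = pD π e := by
      rw [← hprod]
      push_cast
      exact Finset.prod_congr rfl fun c _ => (hn c).symm
    rcases hD with h2 | h2
    · left
      rw [← h2, nat_int] at h1
      have := congrArg QuadraticAlgebra.re h1
      rwa [QuadraticAlgebra.re_intCast, QuadraticAlgebra.re_intCast] at this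
    · right
      have h3 : ((∏ c, n c : ℤ) : Ei) = ((-(D : ℤ) : ℤ) : Ei) := by
        rw [h1]
        push_cast
        rw [h2, neg_neg]
      have := congrArg QuadraticAlgebra.re h3
      rwa [QuadraticAlgebra.re_intCast, QuadraticAlgebra.re_intCast] at this
  let d : ZMod 3 → ℕ := fun c => (n c).natAbs
  have hdP : ∀ (c : ZMod 3) (p : ℕ), p ∣ d c → ((p : ℕ) : Ei) ∣ P c := by
    intro c p hp
    rw [hn c, nat_int]
    exact Pool.Agent.Y692.QS.int_dvd_int.2 (Int.natCast_dvd.2 hp)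
  have hdprod : ∏ c, d c = D := by
    have h1 : ∏ c, d c = (∏ c, n c).natAbs := (map_prod Int.natAbsHom n univ).symm
    rw [h1]
    rcases hprodn with h2 | h2
    · rw [h2, Int.natAbs_natCast]
    · rw [h2, Int.natAbs_neg, Int.natAbs_natCast]
  have hfac : ∀ (c : ZMod 3) (p : ℕ), p.Prime → p ∣ d c → ∀ ρ : Ei, Prime ρ → ρ ∣ ((p : ℕ) : Ei) →
      ∃ j, v j = c ∧ ρ ∣ π j ∧ π j ∣ ρ := by
    intro c p hp hpd ρ hρ hρp
    obtain ⟨j, hj, h1, h2⟩ := dvd_part h _ hρ (hρp.trans (hdP c p hpd))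
    exact ⟨j, (mem_filter.1 hj).2, h1, h2⟩
  have hcop : ∀ c c', c ≠ c' → Nat.Coprime (d c) (d c') := by
    intro c c' hcc
    by_contra hnc
    obtain ⟨p, hp, h1, h2⟩ := Nat.Prime.not_coprime_iff_dvd.1 hnc
    obtain ⟨ρ, hρ, hρp⟩ := exists_prime_dvd hp
    obtain ⟨j, hj, h3, h4⟩ := hfac c p hp h1 ρ hρ hρp
    obtain ⟨j', hj', h3', h4'⟩ := hfac c' p hp h2 ρ hρ hρp
    have h5 : j = j' := by
      by_contra hne
      exact h.nd j j' hne (h4'.trans h3)
    apply hcc
    rw [← hj, ← hj', h5]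
  have hloc : ∀ (c : ZMod 3) (p : ℕ), p.Prime → p ∣ d c →
      ∃ x : ℤ, (p : ℤ) ∣ (d (c + 1) : ℤ) * (d (c + 2) : ℤ) ^ 2 - x ^ 3 := by
    intro c p hp hpd
    obtain ⟨ρ, hρ, hρp⟩ := exists_prime_dvd hp
    obtain ⟨j, hj, h3, h4⟩ := hfac c p hp hpd ρ hρ hρp
    obtain ⟨l, hl, hdl, hn3, hz⟩ := below (h.pq j)
    have hlp : l = p := prime_below hp hl (h4.trans hρp) hz
    subst hlp
    rcases hn3 with ⟨h5, h6⟩ | ⟨h5, h6⟩
    · have hprime := (h.pq j).prime
      have h9 := (h.pq j).norm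
      have hc1 : v j ≠ c + 1 := by
        rw [hj]
        exact (by decide : ∀ c : ZMod 3, c ≠ c + 1) c
      have hc2 : v j ≠ c + 2 := by
        rw [hj]
        exact (by decide : ∀ c : ZMod 3, c ≠ c + 2) c
      obtain ⟨a1, a2⟩ := cs_part h hc1
      obtain ⟨b1, b2⟩ := cs_part h hc2
      have b1' : ¬ π j ∣ P (c + 2) ^ 2 := fun h => b1 (hprime.dvd_of_dvd_pow h)
      have h7 : cs (π j) (P (c + 1) * P (c + 2) ^ 2) = 0 := by
        rw [Pool.Agent.Y715.T.RecG.cs_mul hprime h9 a1 b1',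
          Pool.Agent.Y715.T.RecG.cs_pow hprime h9 b1]
        show cs (π j) (P (c + 1)) + ((2 : ℕ) : ZMod 3) * cs (π j) (P (c + 2)) = 0
        have a2' : cs (π j) (P (c + 1)) = ∑ i, if v i = c + 1 then e i * cs (π j) (π i) else 0 := a2
        have b2' : cs (π j) (P (c + 2)) = ∑ i, if v i = c + 2 then e i * cs (π j) (π i) else 0 := b2
        rw [a2', b2', mul_sum, ← sum_add_distrib]
        refine Eq.trans ?_ (hv j)
        refine sum_congr rfl fun i _ => ?_
        rw [hj]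
        generalize e i * cs (π j) (π i) = t
        have : ∀ (x c t : ZMod 3), ((if x = c + 1 then t else 0) + ((2 : ℕ) : ZMod 3) *
            (if x = c + 2 then t else 0)) = t * (x - c) := by decide
        exact this (v i) c t
      have hnd12 : ¬ π j ∣ P (c + 1) * P (c + 2) ^ 2 := fun h => by
        rcases hprime.dvd_or_dvd h with h | h
        · exact a1 h
        · exact b1' h
      obtain ⟨y, hy⟩ := (Pool.Agent.Y715.T.RecG.cs_zero_iff hprime h9 hnd12).1 h7
      have h8 : π j ∣ ((n (c + 1) * n (c + 2) ^ 2 : ℤ) : Ei) - y ^ 3 := by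
        push_cast
        rw [← hn, ← hn]
        exact hy
      obtain ⟨x, hx⟩ := cube_one hl hdl h6 hz h8
      have e2 : ((d (c + 2) : ℕ) : ℤ) ^ 2 = n (c + 2) ^ 2 := Int.natAbs_sq _
      rw [e2]
      rcases Int.natAbs_eq (n (c + 1)) with h10 | h10
      · refine ⟨x, ?_⟩
        have e1 : ((d (c + 1) : ℕ) : ℤ) = n (c + 1) := h10.symm
        rw [e1]
        exact hx
      · refine ⟨-x, ?_⟩
        have e1 : ((d (c + 1) : ℕ) : ℤ) = -n (c + 1) := by
          show (((n (c + 1)).natAbs : ℕ) : ℤ) = _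
          omega
        rw [e1]
        have e3 : -n (c + 1) * n (c + 2) ^ 2 - (-x) ^ 3 = -(n (c + 1) * n (c + 2) ^ 2 - x ^ 3) := by
          ring
        rw [e3]
        exact hx.neg_right
    · exact cube_two hl h5 _
  obtain ⟨c0, hc0⟩ := hNS d hdprod hcop hloc
  have hall : ∀ i, v i = c0 := by
    intro i
    by_contra hne
    have h1 := hc0 (v i) hne
    have h2 : π i ∣ P (v i) := pi_dvd_part h _ (mem_filter.2 ⟨mem_univ _, rfl⟩)
    have h3 : IsUnit (P (v i)) := by
      rw [hn]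
      have h4 : IsUnit (n (v i)) := Int.isUnit_iff_natAbs_eq.2 h1
      exact h4.map (Int.castRingHom Ei)
    exact (h.pq i).prime.not_isUnit (isUnit_of_dvd_unit h2 h3)
  intro i j
  rw [hall i, hall j]

end three

section four

variable {J : Type} [Fintype J] {π : J → Ei} {e : J → ZMod 3} {D : ℕ}

/-- the fixed point of the conjugation -/
theorem fixed (hC : Cls D) (h : Dt π e) (hD : (D : Ei) = pD π e ∨ (D : Ei) = -pD π e) :
    ∃ q : J, ∀ j : J, star (π j) = π j ↔ j = q := by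
  obtain ⟨-, -, -, q, hq, hq3, hqD, hqu⟩ := hC
  obtain ⟨ρ, hρ, hρq⟩ := exists_prime_dvd hq
  have hqD' : ((q : ℕ) : Ei) ∣ (D : Ei) := by
    rw [nat_int, nat_int]
    exact Pool.Agent.Y692.QS.int_dvd_int.2 (by exact_mod_cast hqD)
  obtain ⟨j0, -, h1, h2⟩ := dvd_part h univ hρ ((dvd_D_iff hD _).1 (hρq.trans hqD'))
  have h3 : π j0 ∣ ((q : ℕ) : Ei) := h2.trans hρq
  obtain ⟨l, hl, hdl, hn3, hz⟩ := below (h.pq j0)
  have hlq : l = q := prime_below hq hl h3 hz
  subst hlq
  have hnr : nr (π j0) = (l : ℤ) ^ 2 := by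
    rcases hn3 with ⟨h5, -⟩ | ⟨-, h6⟩
    · omega
    · exact h6
  obtain ⟨u, hu⟩ := h3
  have hu1 : nr u = 1 := by
    have h5 : nr ((l : ℕ) : Ei) = nr (π j0) * nr u := by rw [hu, Pool.Agent.Y692.QS.nr_mul]
    rw [Pool.Agent.Y692.QS.nr_nat, hnr] at h5
    have h6 : ((l : ℤ) ^ 2) ≠ 0 := pow_ne_zero _ (by exact_mod_cast hl.ne_zero)
    exact (mul_left_cancel₀ h6 (by rw [mul_one]; exact h5)).symm
  have huu : IsUnit u := Pool.Agent.Y692.QS.isUnit_iff.2 hu1
  refine ⟨j0, fun j => ⟨fun hj => ?_, ?_⟩⟩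
  · -- uniqueness
    have hr := real_of_star hj
    obtain ⟨p, hp, hdp, hn3', hz'⟩ := below (h.pq j)
    have hpD : p ∣ D := by
      have h5 : π j ∣ (D : Ei) := (dvd_D_iff hD _).2 (pi_dvd_part h univ (mem_univ j))
      rw [nat_int, hz'] at h5
      exact_mod_cast h5
    set n : ℤ := (π j).re with hn
    have hnn : nr (π j) = n ^ 2 := by
      rw [hr, Pool.Agent.Y692.QS.nr_int]
    have hpn : p % 3 = 2 := by
      rcases hn3' with ⟨h5, h6⟩ | ⟨h5, -⟩
      · exfalso
        rw [hnn] at h6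
        have hpp : Prime (p : ℤ) := Nat.prime_iff_prime_int.1 hp
        have h7 : (p : ℤ) ∣ n := hpp.dvd_of_dvd_pow (by rw [h6])
        obtain ⟨k, hk⟩ := h7
        rw [hk] at h6
        have hp0 : (p : ℤ) ≠ 0 := by exact_mod_cast hp.ne_zero
        have h8 : (p : ℤ) * k ^ 2 = 1 := by
          apply mul_left_cancel₀ hp0
          linear_combination h6
        have h9 : (p : ℤ) ∣ 1 := ⟨_, h8.symm⟩
        have h10 := Int.le_of_dvd one_pos h9
        have := hp.one_lt
        omega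
      · exact h5
    have hpq : p = l := by
      by_contra hne
      have := hqu p hp hpD hne
      omega
    subst hpq
    -- `π j` divides `l` and `l` divides `π j`
    have h11 : (p : ℤ) ∣ n := by
      rw [← hz']
      rw [← hr]
    have h12 : π j0 ∣ π j := by
      rw [hr]
      exact (hz _).2 h11
    by_contra hne
    exact h.nd j j0 hne h12
  · rintro rfl
    have h5 : star (π j) ∣ π j := by
      have h6 : star (π j) * star u = ((l : ℕ) : Ei) := by
        rw [← star_mul', ← hu, star_nat]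
      have h7 : star (π j) ∣ π j * u := ⟨star u, by rw [h6, hu]⟩
      exact (huu.dvd_mul_right).1 h7
    exact eq_of_dvdG (h.pq j) (pq_star (h.pq j)) h5

end four

theorem cri : S_CRI := by
  intro hR D hC hNS J _ π e h hD v hv
  obtain ⟨q, hq⟩ := fixed hC h hD
  choose σ hσ using exists_sigma h hD
  have hσσ : ∀ j, σ (σ j) = j := fun j => pi_inj h (by rw [hσ, hσ, star_star])
  have hes : ∀ j, e (σ j) = e j := fun j => e_sigma h hD (hσ j)
  have hσq : ∀ j, σ j = j ↔ j = q := by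
    intro j
    rw [← hq]
    constructor
    · intro h1
      rw [← hσ, h1]
    · intro h1
      exact pi_inj h (by rw [hσ, h1])
  let m : J → J → ZMod 3 := fun i j => if i = j then 0 else e i * e j * cs (π i) (π j)
  have hL : ∀ (v : J → ZMod 3) (j : J), Lp m v j =
      e j * ∑ i, e i * cs (π j) (π i) * (v i - v j) := by
    intro v j
    unfold Lp
    rw [mul_sum]
    refine sum_congr rfl fun i _ => ?_
    show (if j = i then 0 else e j * e i * cs (π j) (π i)) * (v i - v j) = _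
    by_cases hij : j = i
    · subst hij
      rw [if_pos rfl, sub_self, mul_zero, mul_zero, mul_zero]
    · rw [if_neg hij]
      ring
  have hker : ∀ v : J → ZMod 3, (∀ j, Lp m v j = 0) ↔
      ∀ j, ∑ i, e i * cs (π j) (π i) * (v i - v j) = 0 := by
    intro v
    refine forall_congr' fun j => ?_
    rw [hL, mul_eq_zero]
    exact ⟨fun h1 => h1.resolve_left (h.e0 j), Or.inr⟩
  refine lin_main (m := m) (σ := σ) (q := q) hσσ hσq ?_ ?_ ?_ v ((hker v).2 hv)
  · intro i j
    show (if i = j then 0 else e i * e j * cs (π i) (π j)) =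
      if j = i then 0 else e j * e i * cs (π j) (π i)
    by_cases hij : i = j
    · subst hij
      rfl
    · rw [if_neg hij, if_neg (fun h' => hij h'.symm),
        hR (π j) (π i) (h.pq j) (h.pq i) (h.nd j i (fun h' => hij h'.symm))]
      ring
  · intro i j
    show (if σ i = σ j then 0 else e (σ i) * e (σ j) * cs (π (σ i)) (π (σ j))) =
      - if i = j then 0 else e i * e j * cs (π i) (π j)
    by_cases hij : i = j
    · subst hij
      simp
    · have hij' : σ i ≠ σ j := fun h' => hij (by rw [← hσσ i, h', hσσ])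
      rw [if_neg hij, if_neg hij', hes, hes, hσ, hσ,
        cs_starG (h.pq i) (h.nd j i (fun h' => hij h'.symm))]
      ring
  · intro x hx hLx
    refine even_part hNS h hD x ((hker x).1 hLx) ?_
    intro i j hij
    have h1 : i = σ j := pi_inj h (by rw [hij, hσ])
    rw [h1, hx]

end Pool.Agent.Y405.CT
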