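import Pool.Agent.Y552.CT.Stm2

/-!
# Project CT2, the statement LFS: functionals on the congruence type subgroups of a flag
-/

set_option autoImplicit false

namespace Pool.Agent.Y405.CT

open Pool.Agent.Y552.CT

universe u v

section

variable {G : Type u} [Group G] {V : Type v} [AddCommGroup V] [Module ℂ V]
  {ρ : G →* Module.End ℂ V}

theorem rr (g : G) (x : V) : ρ g (ρ g⁻¹ x) = x := by
  rw [← Module.End.mul_apply, ← map_mul, mul_inv_cancel, map_one, Module.End.one_apply]

theorem rr' (g : G) (x : V) : ρ g⁻¹ (ρ g x) = x := by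
  rw [← Module.End.mul_apply, ← map_mul, inv_mul_cancel, map_one, Module.End.one_apply]

theorem normal_U (F : Flag ρ) (k : ℕ) : (F.U k).Normal := by
  refine ⟨fun g hg t => ?_⟩
  intro i x hx
  have h1 : ρ (t * g * t⁻¹) x - x = ρ t (ρ g (ρ t⁻¹ x) - ρ t⁻¹ x) := by
    rw [map_sub, rr, map_mul, map_mul, Module.End.mul_apply, Module.End.mul_apply]
  rw [h1]
  exact F.stable i t _ (hg i _ (F.stable (i + k) t⁻¹ x hx))

/-- endomorphisms moving the flag down by `k` steps -/
def Ek (F : Flag ρ) (k : ℕ) : Submodule ℂ (Module.End ℂ V) where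
  carrier := {X | ∀ i : ℕ, ∀ x ∈ F.F (i + k), X x ∈ F.F i}
  zero_mem' := by
    intro i x _
    simp
  add_mem' := by
    intro a b ha hb i x hx
    rw [LinearMap.add_apply]
    exact (F.F i).add_mem (ha i x hx) (hb i x hx)
  smul_mem' := by
    intro c a ha i x hx
    rw [LinearMap.smul_apply]
    exact (F.F i).smul_mem c (ha i x hx)

/-- multiplication from the left, on the dual -/
def LL (X : Module.End ℂ V) : Module.End ℂ (Module.Dual ℂ (Module.End ℂ V)) where
  toFun φ := φ.comp (LinearMap.mulLeft ℂ X)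
  map_add' a b := by ext; rfl
  map_smul' c a := by ext; rfl

/-- multiplication from the right, on the dual -/
def RR (X : Module.End ℂ V) : Module.End ℂ (Module.Dual ℂ (Module.End ℂ V)) where
  toFun φ := φ.comp (LinearMap.mulRight ℂ X)
  map_add' a b := by ext; rfl
  map_smul' c a := by ext; rfl

theorem LL_apply (X : Module.End ℂ V) (φ : Module.Dual ℂ (Module.End ℂ V)) (Y : Module.End ℂ V) :
    LL X φ Y = φ (X * Y) := rfl

theorem RR_apply (X : Module.End ℂ V) (φ : Module.Dual ℂ (Module.End ℂ V)) (Y : Module.End ℂ V) :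
    RR X φ Y = φ (Y * X) := rfl

/-- eigenvalues of the conjugation on the dual of the endomorphisms -/
theorem eig_conj [FiniteDimensional ℂ V] (g : G) (c : ℂ) (φ : Module.Dual ℂ (Module.End ℂ V))
    (h0 : φ ≠ 0) (h : ∀ X, φ (ρ g⁻¹ * X * ρ g) = c * φ X) :
    ∃ α β : ℂ, Module.End.HasEigenvalue (ρ g) α ∧ Module.End.HasEigenvalue (ρ g⁻¹) β ∧
      c = α * β := by
  obtain ⟨W, hW⟩ : ∃ W : Submodule ℂ (Module.Dual ℂ (Module.End ℂ V)),
      W = Module.End.eigenspace (LL (ρ g⁻¹) * RR (ρ g)) c := ⟨_, rfl⟩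
  have hmem : ∀ ψ, ψ ∈ W ↔ ∀ X, ψ (ρ g⁻¹ * X * ρ g) = c * ψ X := by
    intro ψ
    rw [hW, Module.End.mem_eigenspace_iff]
    constructor
    · intro h X
      have h1 := LinearMap.congr_fun h X
      rw [Module.End.mul_apply, LL_apply, RR_apply, LinearMap.smul_apply, smul_eq_mul] at h1
      exact h1
    · intro h
      refine LinearMap.ext fun X => ?_
      rw [Module.End.mul_apply, LL_apply, RR_apply, LinearMap.smul_apply, smul_eq_mul]
      exact h X
  have hst : ∀ ψ ∈ W, LL (ρ g⁻¹) ψ ∈ W := by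
    intro ψ hψ
    rw [hmem] at hψ ⊢
    intro X
    rw [LL_apply, LL_apply, ← hψ (ρ g⁻¹ * X)]
    simp only [mul_assoc]
  have hφ : φ ∈ W := (hmem φ).mpr h
  have : Nontrivial W := ⟨⟨⟨φ, hφ⟩, 0, fun h1 => h0 (by simpa using congrArg Subtype.val h1)⟩⟩
  obtain ⟨β, hβ⟩ := Module.End.exists_eigenvalue ((LL (ρ g⁻¹)).restrict hst)
  obtain ⟨ψ, hψ⟩ := hβ.exists_hasEigenvector
  obtain ⟨χ, hχ⟩ : ∃ χ : Module.Dual ℂ (Module.End ℂ V), χ = ψ.1 := ⟨_, rfl⟩
  have hχ0 : χ ≠ 0 := by
    intro h1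
    apply hψ.2
    apply Subtype.ext
    rw [← hχ, h1]
    rfl
  have hχW : ∀ X, χ (ρ g⁻¹ * X * ρ g) = c * χ X := by
    rw [hχ]
    exact (hmem _).mp ψ.2
  have hχβ : ∀ X, χ (ρ g⁻¹ * X) = β * χ X := by
    intro X
    have h1 := congrArg Subtype.val hψ.apply_eq_smul
    have h2 := LinearMap.congr_fun h1 X
    rw [LinearMap.coe_restrict_apply, LL_apply, ← hχ] at h2
    rw [h2, hχ]
    rfl
  have hβ0 : β ≠ 0 := by
    intro h1
    apply hχ0
    refine LinearMap.ext fun Y => ?_
    have h2 := hχβ (ρ g * Y)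
    rw [← mul_assoc, ← map_mul, inv_mul_cancel, map_one, one_mul, h1, zero_mul] at h2
    rw [h2]
    rfl
  refine ⟨c / β, β, ?_, ?_, by rw [div_mul_cancel₀ _ hβ0]⟩
  · rw [Module.End.hasEigenvalue_iff_mem_spectrum, spectrum.mem_iff]
    intro hu
    obtain ⟨Z, hZ⟩ := hu.exists_left_inv
    apply hχ0
    refine LinearMap.ext fun Y => ?_
    have h3 : ∀ X, χ (X * (algebraMap ℂ (Module.End ℂ V) (c / β) - ρ g)) = 0 := by
      intro X
      have h4 : χ (X * ρ g) = c / β * χ X := by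
        have h5 := hχβ (X * ρ g)
        rw [← mul_assoc, hχW] at h5
        field_simp
        linear_combination -h5
      have h6 : X * algebraMap ℂ (Module.End ℂ V) (c / β) = (c / β) • X := by
        rw [← Algebra.commutes, ← Algebra.smul_def]
      rw [mul_sub, map_sub, h4, h6, map_smul, smul_eq_mul, sub_self]
    have h7 := h3 (Y * Z)
    rw [mul_assoc, hZ, mul_one] at h7
    rw [h7]
    rfl
  · rw [Module.End.hasEigenvalue_iff_mem_spectrum, spectrum.mem_iff]
    intro hu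
    obtain ⟨Z, hZ⟩ := hu.exists_right_inv
    apply hχ0
    refine LinearMap.ext fun Y => ?_
    have h3 : ∀ X, χ ((algebraMap ℂ (Module.End ℂ V) β - ρ g⁻¹) * X) = 0 := by
      intro X
      rw [sub_mul, map_sub, hχβ, ← Algebra.smul_def, map_smul, smul_eq_mul, sub_self]
    have h7 := h3 (Z * Y)
    rw [← mul_assoc, hZ, one_mul] at h7
    rw [h7]
    rfl

/-- the functionals on `U k` -/
noncomputable def RF (F : Flag ρ) (k : ℕ) (hk : 1 ≤ k) :
    (Ek F (k + 1)).dualAnnihilator →ₗ[ℂ] (Additive (F.U k) →+ ℂ) where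
  toFun φ :=
    { toFun := fun a => φ.1 (ρ ((Additive.toMul a : F.U k) : G) - 1)
      map_zero' := by
        show φ.1 (ρ (1 : G) - 1) = 0
        rw [map_one, sub_self, map_zero]
      map_add' := by
        intro a b
        show φ.1 (ρ (((Additive.toMul a : F.U k) : G) * ((Additive.toMul b : F.U k) : G)) - 1) = _
        obtain ⟨x, hx⟩ : ∃ x : F.U k, x = Additive.toMul a := ⟨_, rfl⟩
        obtain ⟨y, hy⟩ : ∃ y : F.U k, y = Additive.toMul b := ⟨_, rfl⟩
        rw [← hx, ← hy]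
        have h1 : ρ ((x : G) * y) - 1 = (ρ x - 1) * (ρ y - 1) + ((ρ x - 1) + (ρ y - 1)) := by
          rw [map_mul]
          noncomm_ring
        have h2 : (ρ (x : G) - 1) * (ρ (y : G) - 1) ∈ Ek F (k + 1) := by
          intro i z hz
          rw [Module.End.mul_apply]
          have h3 : (ρ (y : G) - 1) z ∈ F.F (i + 1) := by
            have h4 := y.2 (i + 1) z (by
              rw [show i + 1 + k = i + (k + 1) by ring]
              exact hz)
            exact h4
          have h5 := x.2 i ((ρ (y : G) - 1) z) (F.mono (by omega) h3)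
          exact h5
        rw [h1, map_add, map_add, (Submodule.mem_dualAnnihilator _).mp φ.2 _ h2, zero_add] }
  map_add' a b := by ext x; rfl
  map_smul' c a := by ext x; rfl

theorem RF_apply (F : Flag ρ) (k : ℕ) (hk : 1 ≤ k) (φ : (Ek F (k + 1)).dualAnnihilator)
    (a : F.U k) : RF F k hk φ (Additive.ofMul a) = φ.1 (ρ (a : G) - 1) := rfl

/-- conjugation on the annihilator -/
noncomputable def TF (F : Flag ρ) (k : ℕ) (g : G) :
    Module.End ℂ (Ek F (k + 1)).dualAnnihilator :=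
  (LL (ρ g⁻¹) * RR (ρ g)).restrict (p := (Ek F (k + 1)).dualAnnihilator) (by
    intro φ hφ
    rw [Submodule.mem_dualAnnihilator] at hφ ⊢
    intro X hX
    rw [Module.End.mul_apply, LL_apply, RR_apply]
    apply hφ
    intro i x hx
    rw [Module.End.mul_apply, Module.End.mul_apply]
    exact F.stable i _ _ (hX i _ (F.stable _ _ _ hx)))

theorem TF_apply (F : Flag ρ) (k : ℕ) (g : G) (φ : (Ek F (k + 1)).dualAnnihilator)
    (X : Module.End ℂ V) : (TF F k g φ).1 X = φ.1 (ρ g⁻¹ * X * ρ g) := rfl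

theorem RF_TF (F : Flag ρ) (k : ℕ) (hk : 1 ≤ k) [(F.U k).Normal] (g : G)
    (φ : (Ek F (k + 1)).dualAnnihilator) :
    ac (F.U k) g (RF F k hk φ) = RF F k hk (TF F k g φ) := by
  refine AddMonoidHom.ext fun a => ?_
  obtain ⟨x, hx⟩ : ∃ x : F.U k, Additive.ofMul x = a := ⟨Additive.toMul a, rfl⟩
  rw [← hx, ac_apply, RF_apply, RF_apply, TF_apply]
  congr 1
  rw [MulAut.conjNormal_apply, inv_inv, map_mul, map_mul, mul_sub, sub_mul, mul_one, ← map_mul,
    ← map_mul, ← map_mul, inv_mul_cancel, map_one]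

/-- an eigenvalue of a quotient is an eigenvalue -/
theorem eig_quot {P Q : Type*} [AddCommGroup P] [Module ℂ P] [FiniteDimensional ℂ P]
    [AddCommGroup Q] [Module ℂ Q] (R : P →ₗ[ℂ] Q) (T : Module.End ℂ P)
    (hT : ∀ x, R x = 0 → R (T x) = 0) (c : ℂ) (x : P) (hx : R x ≠ 0)
    (hc : R (T x) = c • R x) : ∃ y, y ≠ 0 ∧ T y = c • y := by
  by_contra hcon
  push Not at hcon
  obtain ⟨S, hS⟩ : ∃ S : Module.End ℂ P, S = T - c • 1 := ⟨_, rfl⟩
  have hSa : ∀ y, S y = T y - c • y := by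
    intro y
    rw [hS]
    rfl
  have hSk : ∀ y ∈ LinearMap.ker R, S y ∈ LinearMap.ker R := by
    intro y hy
    rw [LinearMap.mem_ker] at hy ⊢
    rw [hSa, map_sub, map_smul, hy, hT y hy, smul_zero, sub_zero]
  have hinj : ∀ y, S y = 0 → y = 0 := by
    intro y hy
    by_contra h0
    rw [hSa, sub_eq_zero] at hy
    exact hcon y h0 hy
  have h1 : Function.Injective (S.restrict hSk) := by
    rw [injective_iff_map_eq_zero]
    intro y hy
    apply Subtype.ext
    apply hinj
    exact congrArg Subtype.val hy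
  have h2 : Function.Surjective (S.restrict hSk) := LinearMap.injective_iff_surjective.mp h1
  have h3 : S x ∈ LinearMap.ker R := by
    rw [LinearMap.mem_ker, hSa, map_sub, map_smul, hc, sub_self]
  obtain ⟨y, hy⟩ := h2 ⟨S x, h3⟩
  have h4 : S (y.1 - x) = 0 := by
    rw [map_sub, sub_eq_zero]
    exact congrArg Subtype.val hy
  have h5 := hinj _ h4
  rw [sub_eq_zero] at h5
  apply hx
  rw [← h5]
  exact y.2

end

theorem lfs : S_LFS.{u, v} := by
  intro G _ V _ _ _ ρ F k hk
  have hN := normal_U F k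
  refine ⟨hN, LinearMap.range (RF F k hk), inferInstance, ?_, ?_, ?_, ?_⟩
  · refine (LinearMap.finrank_range_le _).trans ?_
    refine (Submodule.finrank_le _).trans ?_
    rw [Subspace.dual_finrank_eq, Module.finrank_linearMap, sq]
  · rintro g f ⟨φ, rfl⟩
    exact ⟨_, (RF_TF F k hk g φ).symm⟩
  · intro a ha h
    have h1 : ρ a - 1 ∈ Ek F (k + 1) := by
      rw [← Subspace.forall_mem_dualAnnihilator_apply_eq_zero_iff]
      intro φ hφ
      exact h _ ⟨⟨φ, hφ⟩, rfl⟩
    intro i x hx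
    exact h1 i x hx
  · rintro g c f ⟨φ, rfl⟩ hf0 hfc
    obtain ⟨y, hy0, hy⟩ := eig_quot (RF F k hk) (TF F k g) (by
      intro x hx
      rw [← RF_TF, hx, map_zero]) c φ hf0 (by rw [← RF_TF, hfc])
    refine eig_conj g c y.1 ?_ ?_
    · intro h
      exact hy0 (Subtype.ext h)
    · intro X
      rw [← TF_apply, hy]
      rfl

end Pool.Agent.Y405.CT
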